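import Mathlib

/-!
# A one-delay equation with sign-changing coefficient: no `π/2`-type condition
-/

set_option autoImplicit false

open MeasureTheory Filter Topology Set

namespace Pool.Agent.Results.MP_5ce401_an.NotStable

/-- `x` is a solution of `x'(t) + a(t) x(h(t)) = 0`, `t ≥ t₀`: on `(-∞, t₀]` it is a continuous
bounded initial function, and on `[t₀, ∞)` it is differentiable (one-sidedly at `t₀`) and satisfies
the equation. -/
structure IsSolution (t₀ : ℝ) (a h x : ℝ → ℝ) : Prop where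
  continuousOn : ContinuousOn x (Iic t₀)
  bounded : ∃ C, ∀ t ≤ t₀, |x t| ≤ C
  ode : ∀ t, t₀ ≤ t → HasDerivWithinAt x (-(a t * x (h t))) (Ici t₀) t

/-- The equation `x'(t) + a(t) x(h(t)) = 0`, `t ≥ t₀`, is stable. -/
def IsStable (t₀ : ℝ) (a h : ℝ → ℝ) : Prop :=
  ∀ ε : ℝ, 0 < ε → ∃ δ : ℝ, 0 < δ ∧ ∀ x : ℝ → ℝ, IsSolution t₀ a h x →
    (∀ t ≤ t₀, |x t| ≤ δ) → ∀ t, t₀ ≤ t → |x t| < ε

/-- The equation `x'(t) + a(t) x(h(t)) = 0`, `t ≥ t₀`, is asymptotically stable. -/
def IsAS (t₀ : ℝ) (a h : ℝ → ℝ) : Prop :=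
  IsStable t₀ a h ∧ ∀ x : ℝ → ℝ, IsSolution t₀ a h x → Tendsto x atTop (𝓝 0)

/-- The standing assumptions on the coefficient `a` and the argument `h` on `[t₀, ∞)`. -/
structure Admissible (t₀ : ℝ) (a h : ℝ → ℝ) : Prop where
  continuousOn_a : ContinuousOn a (Ici t₀)
  continuousOn_h : ContinuousOn h (Ici t₀)
  bounded_a : ∃ A, ∀ t, t₀ ≤ t → |a t| ≤ A
  bounded_delay : ∃ τ, ∀ t, t₀ ≤ t → 0 ≤ t - h t ∧ t - h t ≤ τ

/-- The argument `h(t) = t - log (3 - cos (ν t))`. -/
noncomputable def hh (ν t : ℝ) : ℝ := t - Real.log (3 - Real.cos (ν * t))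

/-- The coefficient. -/
noncomputable def aa (κ ν t : ℝ) : ℝ :=
  -((1 + κ * Real.cos (ν * t)) * (3 - Real.cos (ν * t))) *
    Real.exp (κ / ν * (Real.sin (ν * t) - Real.sin (ν * hh ν t)))

/-- The growing solution `c * exp (t + (κ / ν) sin (ν t))`. -/
noncomputable def xx (c κ ν t : ℝ) : ℝ := c * Real.exp (t + κ / ν * Real.sin (ν * t))

lemma three_sub_cos (y : ℝ) : 2 ≤ 3 - Real.cos y ∧ 3 - Real.cos y ≤ 4 := by
  have h1 := Real.cos_le_one y
  have h2 := Real.neg_one_le_cos y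
  constructor <;> linarith

lemma continuous_hh (ν : ℝ) : Continuous (hh ν) := by
  unfold hh
  refine continuous_id.sub (Continuous.log (by fun_prop) ?_)
  intro t
  have := (three_sub_cos (ν * t)).1
  linarith

lemma continuous_aa (κ ν : ℝ) : Continuous (aa κ ν) := by
  unfold aa
  have := continuous_hh ν
  fun_prop

lemma log_bounds (y : ℝ) : Real.log 2 ≤ Real.log (3 - Real.cos y) ∧
    Real.log (3 - Real.cos y) ≤ 2 * Real.log 2 := by
  obtain ⟨h1, h2⟩ := three_sub_cos y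
  refine ⟨Real.log_le_log (by norm_num) h1, ?_⟩
  have h4 : Real.log 4 = 2 * Real.log 2 := by
    rw [show (4 : ℝ) = 2 ^ (2 : ℕ) by norm_num, Real.log_pow]; norm_num
  rw [← h4]
  exact Real.log_le_log (by linarith) h2

lemma sub_hh (ν t : ℝ) : Real.log 2 ≤ t - hh ν t ∧ t - hh ν t ≤ 2 * Real.log 2 := by
  have := log_bounds (ν * t)
  simpa [hh] using this

lemma hasDerivAt_xx (c κ : ℝ) {ν : ℝ} (hν : 0 < ν) (t : ℝ) :
    HasDerivAt (xx c κ ν) (-(aa κ ν t * xx c κ ν (hh ν t))) t := by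
  have h1 : HasDerivAt (fun t => Real.sin (ν * t)) (Real.cos (ν * t) * ν) t := by
    have := ((hasDerivAt_id t).const_mul ν).sin
    simpa using this
  have h2 : HasDerivAt (fun t => t + κ / ν * Real.sin (ν * t))
      (1 + κ / ν * (Real.cos (ν * t) * ν)) t := (hasDerivAt_id t).add (h1.const_mul _)
  have h3 := h2.exp.const_mul c
  have h4 : c * (Real.exp (t + κ / ν * Real.sin (ν * t)) *
      (1 + κ / ν * (Real.cos (ν * t) * ν))) = -(aa κ ν t * xx c κ ν (hh ν t)) := by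
    have e1 : κ / ν * (Real.cos (ν * t) * ν) = κ * Real.cos (ν * t) := by
      field_simp
    have hpos : 0 < 3 - Real.cos (ν * t) := by
      have := (three_sub_cos (ν * t)).1
      linarith
    have e2 : Real.exp (κ / ν * (Real.sin (ν * t) - Real.sin (ν * hh ν t))) *
        Real.exp (hh ν t + κ / ν * Real.sin (ν * hh ν t)) =
        Real.exp (t + κ / ν * Real.sin (ν * t)) / (3 - Real.cos (ν * t)) := by
      have e3 : Real.exp (Real.log (3 - Real.cos (ν * t))) = 3 - Real.cos (ν * t) :=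
        Real.exp_log hpos
      rw [← Real.exp_add, eq_div_iff hpos.ne']
      rw [← e3, ← Real.exp_add]
      congr 1
      unfold hh
      ring
    unfold aa xx
    rw [e1]
    have : -(-((1 + κ * Real.cos (ν * t)) * (3 - Real.cos (ν * t))) *
      Real.exp (κ / ν * (Real.sin (ν * t) - Real.sin (ν * hh ν t))) *
      (c * Real.exp (hh ν t + κ / ν * Real.sin (ν * hh ν t)))) =
      c * (1 + κ * Real.cos (ν * t)) * (3 - Real.cos (ν * t)) *
      (Real.exp (κ / ν * (Real.sin (ν * t) - Real.sin (ν * hh ν t))) *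
      Real.exp (hh ν t + κ / ν * Real.sin (ν * hh ν t))) := by ring
    rw [this, e2]
    have hne := hpos.ne'
    generalize Real.exp (t + κ / ν * Real.sin (ν * t)) = E
    generalize Real.cos (ν * t) = C at *
    field_simp
  rw [← h4]
  exact h3

/-- The main part of the coefficient. -/
noncomputable def FF (κ ν s : ℝ) : ℝ := -((1 + κ * Real.cos (ν * s)) * (3 - Real.cos (ν * s)))

/-- A primitive of the main part, for `κ = 6 + 2 D`. -/
noncomputable def GG (D κ ν s : ℝ) : ℝ :=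
  D * s + ν⁻¹ * ((1 - 3 * κ) * Real.sin (ν * s) + κ / 2 * (Real.sin (ν * s) * Real.cos (ν * s)))

lemma hasDerivAt_GG {D κ ν : ℝ} (hκ : κ = 6 + 2 * D) (hν : 0 < ν) (s : ℝ) :
    HasDerivAt (GG D κ ν) (FF κ ν s) s := by
  have h0 : HasDerivAt (fun t => ν * t) ν s := by
    simpa using (hasDerivAt_id s).const_mul ν
  have h1 : HasDerivAt (fun t => Real.sin (ν * t)) (Real.cos (ν * s) * ν) s := h0.sin
  have h2 : HasDerivAt (fun t => Real.cos (ν * t)) (-Real.sin (ν * s) * ν) s := h0.cos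
  have h3 := ((hasDerivAt_id s).const_mul D).add
    (((h1.const_mul (1 - 3 * κ)).add ((h1.mul h2).const_mul (κ / 2))).const_mul ν⁻¹)
  refine h3.congr_deriv ?_
  unfold FF
  have hsc := Real.sin_sq_add_cos_sq (ν * s)
  have hs : Real.sin (ν * s) ^ 2 = 1 - Real.cos (ν * s) ^ 2 := by linarith
  have hne := hν.ne'
  field_simp
  subst hκ
  linear_combination (-(6 + 2 * D)) * hsc

lemma abs_aa_sub_FF {κ ν : ℝ} (hκ0 : 0 ≤ κ) (hκ8 : κ ≤ 8) (hν : 16 ≤ ν) (s : ℝ) :
    |aa κ ν s - FF κ ν s| ≤ 1152 / ν := by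
  have hν0 : 0 < ν := by linarith
  have hq : 0 ≤ κ / ν := by positivity
  have hq8 : κ / ν ≤ 8 / ν := by gcongr
  have hq' : κ / ν ≤ 1 / 2 := by
    rw [div_le_iff₀ hν0]; linarith
  set y := κ / ν * (Real.sin (ν * s) - Real.sin (ν * hh ν s)) with hy
  have hy1 : |y| ≤ κ / ν * 2 := by
    rw [hy, abs_mul, abs_of_nonneg hq]
    gcongr
    have h1 := Real.sin_le_one (ν * s)
    have h2 := Real.neg_one_le_sin (ν * s)
    have h3 := Real.sin_le_one (ν * hh ν s)
    have h4 := Real.neg_one_le_sin (ν * hh ν s)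
    rw [abs_le]; constructor <;> linarith
  have hy2 : |Real.exp y - 1| ≤ 32 / ν := by
    have := Real.abs_exp_sub_one_le (x := y) (by linarith)
    calc |Real.exp y - 1| ≤ 2 * |y| := this
      _ ≤ 2 * (8 / ν * 2) := by linarith
      _ = 32 / ν := by ring
  have hF : |FF κ ν s| ≤ 36 := by
    unfold FF
    rw [abs_neg, abs_mul]
    obtain ⟨h1, h2⟩ := three_sub_cos (ν * s)
    have h3 : |3 - Real.cos (ν * s)| ≤ 4 := by rw [abs_le]; constructor <;> linarith
    have h4 : |1 + κ * Real.cos (ν * s)| ≤ 9 := by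
      calc |1 + κ * Real.cos (ν * s)| ≤ |(1 : ℝ)| + |κ * Real.cos (ν * s)| := abs_add_le _ _
        _ = 1 + κ * |Real.cos (ν * s)| := by rw [abs_mul, abs_of_nonneg hκ0, abs_one]
        _ ≤ 1 + 8 * 1 := by
          have := Real.abs_cos_le_one (ν * s)
          gcongr
        _ = 9 := by norm_num
    calc |1 + κ * Real.cos (ν * s)| * |3 - Real.cos (ν * s)| ≤ 9 * 4 := by gcongr
      _ = 36 := by norm_num
  have e : aa κ ν s - FF κ ν s = FF κ ν s * (Real.exp y - 1) := by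
    simp only [aa, FF, ← hy]; ring
  rw [e, abs_mul]
  calc |FF κ ν s| * |Real.exp y - 1| ≤ 36 * (32 / ν) := by gcongr
    _ = 1152 / ν := by ring

lemma integral_bound {D κ ν : ℝ} (hD0 : 0 < D) (hD1 : D ≤ 1) (hκ : κ = 6 + 2 * D) (hν : 16 ≤ ν)
    (t : ℝ) : |(∫ s in hh ν t..t, aa κ ν s) - D * (t - hh ν t)| ≤ 2000 / ν := by
  have hν0 : 0 < ν := by linarith
  have hκ0 : 0 ≤ κ := by linarith
  have hκ8 : κ ≤ 8 := by linarith
  have hca := continuous_aa κ ν
  have hcF : Continuous (FF κ ν) := by unfold FF; fun_prop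
  have hl2 : Real.log 2 < 0.6931471808 := Real.log_two_lt_d9
  have hl2' : 0.6931471803 < Real.log 2 := Real.log_two_gt_d9
  obtain ⟨hd1, hd2⟩ := sub_hh ν t
  have h1 : (∫ s in hh ν t..t, FF κ ν s) = GG D κ ν t - GG D κ ν (hh ν t) :=
    intervalIntegral.integral_eq_sub_of_hasDerivAt (fun s _ => hasDerivAt_GG hκ hν0 s)
      (hcF.intervalIntegrable _ _)
  have h2 : (∫ s in hh ν t..t, aa κ ν s) =
      (∫ s in hh ν t..t, (aa κ ν s - FF κ ν s)) + (GG D κ ν t - GG D κ ν (hh ν t)) := by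
    rw [← h1, ← intervalIntegral.integral_add]
    · simp
    · exact (hca.sub hcF).intervalIntegrable _ _
    · exact hcF.intervalIntegrable _ _
  have h3 : |∫ s in hh ν t..t, (aa κ ν s - FF κ ν s)| ≤ 1152 / ν * |t - hh ν t| := by
    have := intervalIntegral.norm_integral_le_of_norm_le_const (a := hh ν t) (b := t)
      (f := fun s => aa κ ν s - FF κ ν s) (C := 1152 / ν)
      (fun s _ => by simpa [Real.norm_eq_abs] using abs_aa_sub_FF hκ0 hκ8 hν s)
    simpa [Real.norm_eq_abs] using this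
  have h4 : |t - hh ν t| ≤ 1.3863 := by
    rw [abs_of_nonneg (by linarith)]; linarith
  have h5 : |∫ s in hh ν t..t, (aa κ ν s - FF κ ν s)| ≤ 1152 * 1.3863 / ν := by
    calc |∫ s in hh ν t..t, (aa κ ν s - FF κ ν s)| ≤ 1152 / ν * |t - hh ν t| := h3
      _ ≤ 1152 / ν * 1.3863 := by gcongr
      _ = 1152 * 1.3863 / ν := by ring
  have h6 : (∫ s in hh ν t..t, aa κ ν s) - D * (t - hh ν t) =
      (∫ s in hh ν t..t, (aa κ ν s - FF κ ν s)) +
      ν⁻¹ * ((1 - 3 * κ) * (Real.sin (ν * t) - Real.sin (ν * hh ν t)) +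
        κ / 2 * (Real.sin (ν * t) * Real.cos (ν * t) -
          Real.sin (ν * hh ν t) * Real.cos (ν * hh ν t))) := by
    rw [h2]; unfold GG; ring
  have hb : ∀ y : ℝ, |Real.sin y * Real.cos y| ≤ 1 := by
    intro y
    rw [abs_mul]
    have h1 := Real.abs_sin_le_one y
    have h2 := Real.abs_cos_le_one y
    calc |Real.sin y| * |Real.cos y| ≤ 1 * 1 := by gcongr
      _ = 1 := by norm_num
  have h7 : |(1 - 3 * κ) * (Real.sin (ν * t) - Real.sin (ν * hh ν t)) +
        κ / 2 * (Real.sin (ν * t) * Real.cos (ν * t) -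
          Real.sin (ν * hh ν t) * Real.cos (ν * hh ν t))| ≤ 54 := by
    have a1 : |1 - 3 * κ| ≤ 23 := by rw [abs_le]; constructor <;> linarith
    have a2 : |Real.sin (ν * t) - Real.sin (ν * hh ν t)| ≤ 2 := by
      have h1 := Real.sin_le_one (ν * t)
      have h2 := Real.neg_one_le_sin (ν * t)
      have h3 := Real.sin_le_one (ν * hh ν t)
      have h4 := Real.neg_one_le_sin (ν * hh ν t)
      rw [abs_le]; constructor <;> linarith
    have a3 : |κ / 2| ≤ 4 := by rw [abs_le]; constructor <;> linarith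
    have a4 : |Real.sin (ν * t) * Real.cos (ν * t) -
          Real.sin (ν * hh ν t) * Real.cos (ν * hh ν t)| ≤ 2 := by
      have b1 := abs_le.1 (hb (ν * t))
      have b2 := abs_le.1 (hb (ν * hh ν t))
      rw [abs_le]; constructor <;> linarith [b1.1, b1.2, b2.1, b2.2]
    calc _ ≤ |(1 - 3 * κ) * (Real.sin (ν * t) - Real.sin (ν * hh ν t))| +
        |κ / 2 * (Real.sin (ν * t) * Real.cos (ν * t) -
          Real.sin (ν * hh ν t) * Real.cos (ν * hh ν t))| := abs_add_le _ _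
      _ ≤ 23 * 2 + 4 * 2 := by
        rw [abs_mul, abs_mul]; gcongr
      _ = 54 := by norm_num
  rw [h6]
  calc _ ≤ |∫ s in hh ν t..t, (aa κ ν s - FF κ ν s)| +
      |ν⁻¹ * ((1 - 3 * κ) * (Real.sin (ν * t) - Real.sin (ν * hh ν t)) +
        κ / 2 * (Real.sin (ν * t) * Real.cos (ν * t) -
          Real.sin (ν * hh ν t) * Real.cos (ν * hh ν t)))| := abs_add_le _ _
    _ ≤ 1152 * 1.3863 / ν + ν⁻¹ * 54 := by
      rw [abs_mul, abs_of_pos (inv_pos.2 hν0)]
      gcongr
    _ = (1152 * 1.3863 + 54) / ν := by ring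
    _ ≤ 2000 / ν := by gcongr; norm_num

/-- For every `M > 0` and every `t₀` there are a bounded continuous coefficient `a` and an argument
`h` with bounded delay such that `0 < liminf ∫_{h(t)}^t a` and `limsup ∫_{h(t)}^t a < M`, but the
equation `x'(t) + a(t) x(h(t)) = 0` has solutions with arbitrarily small initial function which
tend to `∞`. -/
theorem exists_growing (M : ℝ) (hM : 0 < M) (t₀ : ℝ) : ∃ a h : ℝ → ℝ, Admissible t₀ a h ∧
    0 < liminf (fun t => ∫ s in h t..t, a s) atTop ∧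
    limsup (fun t => ∫ s in h t..t, a s) atTop < M ∧
    ∀ δ : ℝ, 0 < δ → ∃ x : ℝ → ℝ, IsSolution t₀ a h x ∧ (∀ t ≤ t₀, |x t| ≤ δ) ∧
      Tendsto x atTop atTop := by
  obtain ⟨D, hD0, hD1, hDM⟩ : ∃ D : ℝ, 0 < D ∧ D ≤ 1 ∧ 4 * D ≤ M := by
    refine ⟨min 1 (M / 4), by positivity, min_le_left _ _, ?_⟩
    have := min_le_right 1 (M / 4)
    linarith
  set ν := 4000 / D with hν
  have hν16 : 16 ≤ ν := by
    rw [hν, le_div_iff₀ hD0]; linarith
  have hν0 : 0 < ν := by linarith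
  have hνD : 2000 / ν = D / 2 := by rw [hν]; field_simp; norm_num
  set κ := 6 + 2 * D with hκ
  have hl2 : Real.log 2 < 0.6931471808 := Real.log_two_lt_d9
  have hl2' : 0.6931471803 < Real.log 2 := Real.log_two_gt_d9
  have hlow : ∀ t, D / 10 ≤ ∫ s in hh ν t..t, aa κ ν s := by
    intro t
    have h1 := abs_le.1 (integral_bound hD0 hD1 hκ hν16 t)
    rw [hνD] at h1
    obtain ⟨hd1, hd2⟩ := sub_hh ν t
    have : D * 0.69 ≤ D * (t - hh ν t) := by gcongr; linarith
    linarith [h1.1]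
  have hup : ∀ t, (∫ s in hh ν t..t, aa κ ν s) ≤ 2 * D := by
    intro t
    have h1 := abs_le.1 (integral_bound hD0 hD1 hκ hν16 t)
    rw [hνD] at h1
    obtain ⟨hd1, hd2⟩ := sub_hh ν t
    have : D * (t - hh ν t) ≤ D * 1.4 := by gcongr; linarith
    linarith [h1.2]
  have hbda : IsBoundedUnder (· ≤ ·) atTop (fun t => ∫ s in hh ν t..t, aa κ ν s) :=
    isBoundedUnder_of ⟨2 * D, hup⟩
  have hbdb : IsBoundedUnder (· ≥ ·) atTop (fun t => ∫ s in hh ν t..t, aa κ ν s) :=
    isBoundedUnder_of ⟨D / 10, hlow⟩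
  refine ⟨aa κ ν, hh ν, ⟨(continuous_aa κ ν).continuousOn, (continuous_hh ν).continuousOn,
    ⟨36 + 1152 / ν, ?_⟩, ⟨2 * Real.log 2, ?_⟩⟩, ?_, ?_, ?_⟩
  · intro t _
    have h1 := abs_aa_sub_FF (κ := κ) (by linarith) (by linarith) hν16 t
    have hF : |FF κ ν t| ≤ 36 := by
      unfold FF
      rw [abs_neg, abs_mul]
      obtain ⟨h1, h2⟩ := three_sub_cos (ν * t)
      have h3 : |3 - Real.cos (ν * t)| ≤ 4 := by rw [abs_le]; constructor <;> linarith
      have h4 : |1 + κ * Real.cos (ν * t)| ≤ 9 := by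
        calc |1 + κ * Real.cos (ν * t)| ≤ |(1 : ℝ)| + |κ * Real.cos (ν * t)| := abs_add_le _ _
          _ = 1 + κ * |Real.cos (ν * t)| := by
            rw [abs_mul, abs_of_nonneg (by linarith : (0 : ℝ) ≤ κ), abs_one]
          _ ≤ 1 + 8 * 1 := by
            have := Real.abs_cos_le_one (ν * t)
            gcongr
            linarith
          _ = 9 := by norm_num
      calc |1 + κ * Real.cos (ν * t)| * |3 - Real.cos (ν * t)| ≤ 9 * 4 := by gcongr
        _ = 36 := by norm_num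
    calc |aa κ ν t| = |FF κ ν t + (aa κ ν t - FF κ ν t)| := by congr 1; ring
      _ ≤ |FF κ ν t| + |aa κ ν t - FF κ ν t| := abs_add_le _ _
      _ ≤ 36 + 1152 / ν := by linarith
  · intro t _
    obtain ⟨hd1, hd2⟩ := sub_hh ν t
    exact ⟨by linarith, hd2⟩
  · have : D / 10 ≤ liminf (fun t => ∫ s in hh ν t..t, aa κ ν s) atTop :=
      le_liminf_of_le hbda.isCoboundedUnder_ge (Eventually.of_forall hlow)
    linarith [show 0 < D / 10 by positivity]
  · have : limsup (fun t => ∫ s in hh ν t..t, aa κ ν s) atTop ≤ 2 * D :=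
      limsup_le_of_le hbdb.isCoboundedUnder_le (Eventually.of_forall hup)
    linarith
  · intro δ hδ
    set E := Real.exp (t₀ + κ / ν) with hE
    have hE0 : 0 < E := Real.exp_pos _
    have hq : 0 ≤ κ / ν := by positivity
    have hbd : ∀ t ≤ t₀, |xx (δ / E) κ ν t| ≤ δ := by
      intro t ht
      unfold xx
      rw [abs_mul, abs_of_pos (by positivity), abs_of_pos (Real.exp_pos _)]
      have : Real.exp (t + κ / ν * Real.sin (ν * t)) ≤ E := by
        rw [hE]
        apply Real.exp_le_exp.2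
        have := Real.sin_le_one (ν * t)
        nlinarith
      calc δ / E * Real.exp (t + κ / ν * Real.sin (ν * t)) ≤ δ / E * E := by gcongr
        _ = δ := by field_simp
    refine ⟨xx (δ / E) κ ν, ⟨?_, ⟨δ, hbd⟩, ?_⟩, hbd, ?_⟩
    · apply Continuous.continuousOn
      unfold xx
      fun_prop
    · intro t _
      exact (hasDerivAt_xx _ _ hν0 t).hasDerivWithinAt
    · unfold xx
      apply Tendsto.const_mul_atTop (by positivity)
      apply Real.tendsto_exp_atTop.comp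
      apply tendsto_atTop_mono (f := fun t => t + (-(κ / ν)))
      · intro t
        have := Real.neg_one_le_sin (ν * t)
        nlinarith
      · exact tendsto_atTop_add_const_right _ _ tendsto_id

lemma not_isStable {t₀ : ℝ} {a h : ℝ → ℝ} (H : ∀ δ : ℝ, 0 < δ → ∃ x : ℝ → ℝ,
    IsSolution t₀ a h x ∧ (∀ t ≤ t₀, |x t| ≤ δ) ∧ Tendsto x atTop atTop) :
    ¬ IsStable t₀ a h := by
  intro hst
  obtain ⟨δ, hδ, h1⟩ := hst 1 one_pos
  obtain ⟨x, hx, hx1, hx2⟩ := H δ hδ
  obtain ⟨t, ht1, ht2⟩ := ((hx2.eventually_ge_atTop 1).and (eventually_ge_atTop t₀)).exists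
  have := h1 x hx hx1 t ht2
  exact absurd (lt_of_le_of_lt (le_abs_self _) this) (not_lt.2 ht1)

/-- **Answer to Q1: no.** There is no constant `M > 0` such that
`0 < liminf ∫_{h(t)}^t a` and `limsup ∫_{h(t)}^t a < M` imply asymptotic stability of
`x'(t) + a(t) x(h(t)) = 0` for continuous bounded coefficients of arbitrary sign and bounded
delays. In fact for every `M > 0` and every `t₀` there is an admissible pair `(a, h)` satisfying
both conditions for which the equation is not even stable, and has a solution tending to `∞`. -/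
theorem result :
    (¬ ∃ M : ℝ, 0 < M ∧ ∀ (t₀ : ℝ) (a h : ℝ → ℝ), Admissible t₀ a h →
      0 < liminf (fun t => ∫ s in h t..t, a s) atTop →
      limsup (fun t => ∫ s in h t..t, a s) atTop < M → IsAS t₀ a h) ∧
    ∀ M : ℝ, 0 < M → ∀ t₀ : ℝ, ∃ a h : ℝ → ℝ, Admissible t₀ a h ∧
      0 < liminf (fun t => ∫ s in h t..t, a s) atTop ∧
      limsup (fun t => ∫ s in h t..t, a s) atTop < M ∧
      ¬ IsStable t₀ a h ∧ ∃ x : ℝ → ℝ, IsSolution t₀ a h x ∧ Tendsto x atTop atTop := by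
  refine ⟨?_, ?_⟩
  · rintro ⟨M, hM, H⟩
    obtain ⟨a, h, h1, h2, h3, h4⟩ := exists_growing M hM 0
    exact not_isStable h4 (H 0 a h h1 h2 h3).1
  · intro M hM t₀
    obtain ⟨a, h, h1, h2, h3, h4⟩ := exists_growing M hM t₀
    obtain ⟨x, hx, -, hx2⟩ := h4 1 one_pos
    exact ⟨a, h, h1, h2, h3, not_isStable h4, x, hx, hx2⟩

end Pool.Agent.Results.MP_5ce401_an.NotStable
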